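import Pool.Agent.H26.TR.Pair
import Pool.Agent.H45.TR.Minor
import Pool.Agent.H74.CT.Count
import Pool.Agent.H19.G5.Base
import Pool.Agent.H80.TB.Leaf
import Pool.Agent.H32.AA.One

set_option autoImplicit false

/-!
Adapter (MP_a46c6f_co, full Q1): the counting step for a code in which only the words of the full states
(and the words with one zero) are known to split.
-/

namespace Pool.Agent.H16.FQ

open Finset hiding mem_sup sup
open Pool.Agent.H98.Code
open Pool.Agent.H26.TR (KD sup mem_sup K_add_self K_fst_add K_cases Fam FF EE IsMin pw pw_KD IsParts sig pairCode)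
open Pool.Agent.H45.TR (W N sg)
open Pool.Agent.H32.AA (IsMat adj_iff)

variable {V : Type} [Fintype V] [DecidableEq V]

/-- the standing hypotheses: the words which are `0` at `e` split in every full state at `e` -/
structure HypQ (L : Submodule (ZMod 2) (V → K)) (e : V) (D : V → K) : Prop where
  iso : ∀ u ∈ L, ∀ w ∈ L, form u w = 0
  noz : ∀ u ∈ L, (∀ v, v ≠ e → u v = 0) → u e ≠ z
  cov : ∀ D' : V → K, (∀ v, v ≠ e → (D' v).1 = 1) → (∀ v, v ≠ e → ∃ u, KD L D' e u ∧ u v ≠ 0) →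
    ∀ u, KD L D' e u → u ≠ 0 → u e = 0 → ∃ g, Splits L u g
  letter : ∀ v, v ≠ e → (D v).1 = 1
  full : ∀ v, v ≠ e → ∃ u, KD L D e u ∧ u v ≠ 0

variable {L : Submodule (ZMod 2) (V → K)} {e : V} {D : V → K} {P : Finset (Finset V)}

theorem HypQ.D_ne (h : HypQ L e D) {v : V} (hv : v ≠ e) : D v ≠ 0 := by
  intro h0
  have := h.letter v hv
  rw [h0] at this
  exact absurd this (by decide)

theorem HypQ.sup_add (h : HypQ L e D) {u w : V → K} (hu : KD L D e u) (hw : KD L D e w) :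
    sup e (u + w) = symmDiff (sup e u) (sup e w) := by
  ext v
  simp only [mem_sup, Finset.mem_symmDiff, Pi.add_apply]
  by_cases hv : v = e
  · simp [hv]
  · have hD := h.D_ne hv
    rcases hu.2.1 v hv with h1 | h1 <;> rcases hw.2.1 v hv with h2 | h2
    · simp [h1, h2]
    · simp [h1, h2, hv, hD]
    · simp [h1, h2, hv, hD]
    · simp [h1, h2, hv, hD, K_add_self]

theorem HypQ.eq_of_sup (h : HypQ L e D) {u w : V → K} (hu : KD L D e u) (hw : KD L D e w)
    (hs : sup e u = sup e w) : u = w := by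
  have hk := hu.add hw
  have hsup : sup e (u + w) = ∅ := by
    rw [h.sup_add hu hw, hs]
    exact symmDiff_self _
  have h0 : ∀ v, v ≠ e → (u + w) v = 0 := by
    intro v hv
    by_contra hne
    have : v ∈ sup e (u + w) := mem_sup.2 ⟨hv, hne⟩
    rw [hsup] at this
    exact absurd this (Finset.notMem_empty _)
  have he : (u + w) e = 0 := by
    rcases hk.2.2 with h1 | h1
    · exact h1
    · exact absurd h1 (h.noz _ hk.1 h0)
  have hall : ∀ v, (u + w) v = 0 := by
    intro v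
    by_cases hv : v = e
    · rw [hv]; exact he
    · exact h0 v hv
  funext v
  have h3 := hall v
  rw [Pi.add_apply] at h3
  have h4 : u v + w v + w v = w v := by rw [h3, zero_add]
  rw [add_assoc, K_add_self, add_zero] at h4
  exact h4

theorem HypQ.split_in (h : HypQ L e D) {u : V → K} (hu : KD L D e u) (hu0 : u ≠ 0) (hue : u e = 0) :
    ∃ c₁ c₂, KD L D e c₁ ∧ KD L D e c₂ ∧ c₁ e = z ∧ c₂ e = z ∧ u = c₁ + c₂ ∧
      ∀ v, v ≠ e → c₁ v = 0 ∨ c₂ v = 0 := by
  have hzf : ZFree u := by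
    intro v hv1
    by_cases hv : v = e
    · rw [hv, hue] at hv1
      exact absurd hv1 (by decide)
    · rcases hu.2.1 v hv with h1 | h1
      · rw [h1] at hv1
        exact absurd hv1 (by decide)
      · have := h.letter v hv
        rw [← h1, hv1] at this
        exact absurd this (by decide)
  obtain ⟨g, c₁, hc₁, c₂, hc₂, hsum', hg1, hg2, hd⟩ := h.cov D h.letter h.full u hu hu0 hue
  have hsum : u = c₁ + c₂ := hsum'.symm
  have hval : ∀ v, v ≠ g → (c₁ v = 0 ∨ c₁ v = u v) ∧ (c₂ v = 0 ∨ c₂ v = u v) := by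
    intro v hv
    have hs : u v = c₁ v + c₂ v := by rw [hsum]; rfl
    rcases hd v hv with h1 | h1
    · rw [h1, zero_add] at hs
      exact ⟨Or.inl h1, Or.inr hs.symm⟩
    · rw [h1, add_zero] at hs
      exact ⟨Or.inr hs.symm, Or.inl h1⟩
  have hge : g = e := by
    by_contra hne
    obtain ⟨k, hk, hkg⟩ := h.full g hne
    have hkD : k g = D g := by
      rcases hk.2.1 g hne with h1 | h1
      · exact absurd h1 hkg
      · exact h1
    have hform := h.iso c₁ hc₁ k hk.1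
    have hone : ∑ v, kf (c₁ v) (k v) = kf (c₁ g) (k g) := by
      apply Finset.sum_eq_single g
      · intro v _ hv
        by_cases hve : v = e
        · have : c₁ v = 0 := by
            rcases (hval v hv).1 with h1 | h1
            · exact h1
            · rw [h1, hve, hue]
          rw [this]; simp [kf]
        · have h1 : c₁ v = 0 ∨ c₁ v = D v := by
            rcases (hval v hv).1 with h1 | h1
            · exact Or.inl h1
            · rcases hu.2.1 v hve with h2 | h2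
              · left; rw [h1, h2]
              · right; rw [h1, h2]
          rcases h1 with h1 | h1
          · rw [h1]; simp [kf]
          · rcases hk.2.1 v hve with h2 | h2
            · rw [h2]; simp [kf]
            · rw [h1, h2]
              unfold kf
              rw [mul_comm]
              exact CharTwo.add_self_eq_zero _
      · intro hg'
        exact absurd (Finset.mem_univ g) hg'
    unfold form at hform
    rw [hone, hg1, hkD] at hform
    have hl := h.letter g hne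
    unfold kf z at hform
    rw [hl] at hform
    exact absurd hform (by simp)
  subst hge
  refine ⟨c₁, c₂, ⟨hc₁, ?_, Or.inr hg1⟩, ⟨hc₂, ?_, Or.inr hg2⟩, hg1, hg2, hsum, hd⟩
  · intro v hv
    rcases (hval v hv).1 with h1 | h1
    · exact Or.inl h1
    · rw [h1]; exact hu.2.1 v hv
  · intro v hv
    rcases (hval v hv).2 with h1 | h1
    · exact Or.inl h1
    · rw [h1]; exact hu.2.1 v hv

theorem HypQ.fam (h : HypQ L e D) : Fam (FF L D e) (EE L D e) := by
  refine ⟨?_, ?_, ?_⟩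
  · rintro S T ⟨u, hu, rfl⟩ ⟨w, hw, rfl⟩
    exact ⟨u + w, hu.add hw, h.sup_add hu hw⟩
  · rintro S T ⟨u, hu, rfl⟩ ⟨w, hw, rfl⟩ h1 h2
    refine ⟨u + w, hu.add hw, h.sup_add hu hw, ?_⟩
    have hu' : u e = z := by
      rcases hu.2.2 with h3 | h3
      · exact absurd ⟨u, hu, rfl, h3⟩ h1
      · exact h3
    have hw' : w e = z := by
      rcases hw.2.2 with h3 | h3
      · exact absurd ⟨w, hw, rfl, h3⟩ h2
      · exact h3
    rw [Pi.add_apply, hu', hw', K_add_self]
  · rintro S _ ⟨u, hu, rfl, hue⟩ hne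
    have hu0 : u ≠ 0 := by
      intro h0
      apply hne
      rw [h0]
      ext v
      simp [mem_sup]
    obtain ⟨c₁, c₂, hc₁, hc₂, he1, he2, hsum, hd⟩ := h.split_in hu hu0 hue
    have hno : ∀ c, KD L D e c → c e = z → sup e c ≠ ∅ := by
      intro c hc hce hs
      refine h.noz c hc.1 ?_ hce
      intro v hv
      by_contra hne'
      have : v ∈ sup e c := mem_sup.2 ⟨hv, hne'⟩
      rw [hs] at this
      exact absurd this (Finset.notMem_empty _)
    refine ⟨sup e c₁, sup e c₂, ⟨c₁, hc₁, rfl⟩, ⟨c₂, hc₂, rfl⟩, hno _ hc₁ he1, hno _ hc₂ he2, ?_, ?_⟩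
    · rw [Finset.disjoint_left]
      intro v h1 h2
      rw [mem_sup] at h1 h2
      rcases hd v h1.1 with h3 | h3
      · exact h1.2 h3
      · exact h2.2 h3
    · ext v
      rw [Finset.mem_union, mem_sup, mem_sup, mem_sup]
      have hs : u v = c₁ v + c₂ v := by rw [hsum]; rfl
      constructor
      · rintro (h1 | h1)
        · refine ⟨h1.1, ?_⟩
          rcases hd v h1.1 with h3 | h3
          · exact absurd h3 h1.2
          · rw [hs, h3, add_zero]; exact h1.2
        · refine ⟨h1.1, ?_⟩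
          rcases hd v h1.1 with h3 | h3
          · rw [hs, h3, zero_add]; exact h1.2
          · exact absurd h3 h1.2
      · rintro ⟨h1, h2⟩
        rcases hd v h1 with h3 | h3
        · right
          refine ⟨h1, ?_⟩
          rw [hs, h3, zero_add] at h2
          exact h2
        · left
          refine ⟨h1, ?_⟩
          rw [hs, h3, add_zero] at h2
          exact h2

theorem HypQ.decomp (h : HypQ L e D) : ∃ P : Finset (Finset V),
    (∀ M ∈ P, M ≠ ∅ ∧ e ∉ M ∧ (fun v => if v = e then z else if v ∈ M then D v else 0) ∈ L) ∧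
    (∀ M ∈ P, ∀ N ∈ P, M ≠ N → Disjoint M N) ∧
    (∀ v, v ≠ e → ∃ M ∈ P, v ∈ M) ∧
    (∀ u, KD L D e u → ∀ M ∈ P, M ⊆ sup e u ∨ Disjoint M (sup e u)) := by
  classical
  have hF := h.fam
  refine ⟨univ.filter fun M => IsMin (FF L D e) M, ?_, ?_, ?_, ?_⟩
  · intro M hM
    have hM : IsMin (FF L D e) M := (Finset.mem_filter.1 hM).2
    obtain ⟨u, hu, hsu⟩ := hM.1
    have hodd := hF.odd hM
    have hue : u e = z := by
      rcases hu.2.2 with h3 | h3
      · exact absurd ⟨u, hu, hsu, h3⟩ hodd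
      · exact h3
    refine ⟨hM.2.1, ?_, ?_⟩
    · rw [← hsu, mem_sup]
      simp
    · have : (fun v => if v = e then z else if v ∈ M then D v else 0) = u := by
        funext v
        by_cases hv : v = e
        · simp [hv, hue]
        · rw [if_neg hv]
          by_cases hvM : v ∈ M
          · rw [if_pos hvM]
            rw [← hsu, mem_sup] at hvM
            rcases hu.2.1 v hv with h1 | h1
            · exact absurd h1 hvM.2
            · exact h1.symm
          · rw [if_neg hvM]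
            rw [← hsu, mem_sup] at hvM
            by_contra hne
            exact hvM ⟨hv, fun h0 => hne h0.symm⟩
      rw [this]
      exact hu.1
  · intro M hM N hN hne
    exact hF.disj _ M N rfl (Finset.mem_filter.1 hM).2 (Finset.mem_filter.1 hN).2 hne
  · intro v hv
    obtain ⟨u, hu, huv⟩ := h.full v hv
    obtain ⟨M, hM, hvM, _⟩ := hF.cover (sup e u) ⟨u, hu, rfl⟩ v (mem_sup.2 ⟨hv, huv⟩)
    exact ⟨M, Finset.mem_filter.2 ⟨Finset.mem_univ _, hM⟩, hvM⟩
  · intro u hu M hM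
    exact hF.sub_or_disj ⟨u, hu, rfl⟩ (Finset.mem_filter.1 hM).2

theorem HypQ.sup_pw (h : HypQ L e D) {M : Finset V} (he : e ∉ M) : sup e (pw D e M) = M := by
  ext v
  rw [mem_sup]
  unfold pw
  by_cases hv : v = e
  · rw [hv]; simp [he]
  · rw [if_neg hv]
    by_cases hvM : v ∈ M
    · rw [if_pos hvM]; exact ⟨fun _ => hvM, fun _ => ⟨hv, h.D_ne hv⟩⟩
    · rw [if_neg hvM]; exact ⟨fun h1 => absurd rfl h1.2, fun h1 => absurd h1 hvM⟩

theorem HypQ.exists_total (h : HypQ L e D) : ∃ u, KD L D e u ∧ ∀ v, v ≠ e → u v = D v := by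
  classical
  obtain ⟨P, hP1, -, hP3, hP4⟩ := h.decomp
  obtain ⟨u, hu, hmax⟩ := Finset.exists_max_image (univ.filter fun u : V → K => KD L D e u)
    (fun u => (sup e u).card) ⟨0, Finset.mem_filter.2 ⟨Finset.mem_univ _, KD.zero⟩⟩
  have hu : KD L D e u := (Finset.mem_filter.1 hu).2
  refine ⟨u, hu, ?_⟩
  intro v hv
  rcases hu.2.1 v hv with h1 | h1
  · exfalso
    obtain ⟨M, hM, hvM⟩ := hP3 v hv
    obtain ⟨-, heM, hML⟩ := hP1 M hM
    have hk : KD L D e (pw D e M) := pw_KD hML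
    have hsM : sup e (pw D e M) = M := h.sup_pw heM
    have hdis : Disjoint M (sup e u) := by
      rcases hP4 u hu M hM with h2 | h2
      · exact absurd h1 (mem_sup.1 (h2 hvM)).2
      · exact h2
    have hle := hmax (u + pw D e M) (Finset.mem_filter.2 ⟨Finset.mem_univ _, hu.add hk⟩)
    have hcard : (sup e (u + pw D e M)).card = (sup e u).card + M.card := by
      rw [h.sup_add hu hk, hsM, (hdis.symm).symmDiff_eq_sup]
      exact Finset.card_union_of_disjoint hdis.symm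
    have hpos : 0 < M.card := Finset.card_pos.2 ⟨v, hvM⟩
    have hle' : (sup e (u + pw D e M)).card ≤ (sup e u).card := hle
    omega
  · exact h1

theorem HypQ.unique' {D' : V → K} (h : HypQ L e D) (h' : HypQ L e D')
    (hz : ∀ u ∈ L, ZOnly u → u = 0 ∨ ∀ v, u v = z) :
    (∀ v, v ≠ e → D v = D' v) ∨ (∀ v, v ≠ e → D v = D' v + z) := by
  obtain ⟨u, hu, hut⟩ := h.exists_total
  obtain ⟨w, hw, hwt⟩ := h'.exists_total
  have h0 : u + w = 0 ∨ ∀ v, (u + w) v = z := by
    apply hz _ (L.add_mem hu.1 hw.1)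
    intro v
    by_cases hv : v = e
    · rw [hv, Pi.add_apply]
      exact K_fst_add _ _ hu.2.2 hw.2.2
    · rw [Pi.add_apply, hut v hv, hwt v hv, Prod.fst_add, h.letter v hv, h'.letter v hv]
      decide
  rcases h0 with h0 | h0
  · left
    intro v hv
    have h1 := congrFun h0 v
    rw [Pi.add_apply, hut v hv, hwt v hv, Pi.zero_apply] at h1
    have h2 : D v + D' v + D' v = D' v := by rw [h1, zero_add]
    rw [add_assoc, K_add_self, add_zero] at h2
    exact h2
  · right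
    intro v hv
    have h1 := h0 v
    rw [Pi.add_apply, hut v hv, hwt v hv] at h1
    have h2 : D v + D' v + D' v = z + D' v := by rw [h1]
    rw [add_assoc, K_add_self, add_zero] at h2
    rw [h2, add_comm]

theorem HypQ.exists_parts (h : HypQ L e D) : ∃ P, IsParts L e D P := by
  obtain ⟨P, h1, h2, h3, h4⟩ := h.decomp
  exact ⟨P, ⟨h1, h2, h3, h4⟩⟩

theorem hyp_change (hP : IsParts L e D P) (h : HypQ L e D) {M : Finset V} (hM : M ∈ P)
    (D' : V → K) (hoff : ∀ v, v ∉ M → D' v = D v) (hlet : ∀ v, v ∈ M → (D' v).1 = 1)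
    (hfull : ∀ v, v ∈ M → ∃ u, KD L D' e u ∧ u v ≠ 0) : HypQ L e D' := by
  have hlet' : ∀ v, v ≠ e → (D' v).1 = 1 := by
    intro v hv
    by_cases hvM : v ∈ M
    · exact hlet v hvM
    · rw [hoff v hvM]; exact h.letter v hv
  refine ⟨h.iso, h.noz, h.cov, hlet', ?_⟩
  intro v hv
  by_cases hvM : v ∈ M
  · exact hfull v hvM
  · obtain ⟨M', hM', hvM'⟩ := hP.cover v hv
    have hne : M' ≠ M := by
      rintro rfl
      exact hvM hvM'
    refine ⟨pw D e M', ⟨(hP.mem M' hM').2.2, ?_, Or.inr (by simp [pw])⟩, ?_⟩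
    · intro w hw
      unfold pw
      rw [if_neg hw]
      by_cases hwM' : w ∈ M'
      · rw [if_pos hwM']
        right
        rw [hoff w (Finset.disjoint_left.1 (hP.disj M' hM' M hM hne) hwM')]
      · rw [if_neg hwM']
        exact Or.inl rfl
    · unfold pw
      rw [if_neg hv, if_pos hvM']
      exact h.D_ne hv

theorem HypQ.sig_ne (h : HypQ L e D) (v : V) : sig D e v ≠ 0 := by
  unfold sig
  by_cases hv : v = e
  · rw [if_pos hv]; decide
  · rw [if_neg hv]; exact h.D_ne hv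

theorem HypQ.mem_pairCode (h : HypQ L e D) {M : Finset V} (heM : e ∉ M) (a : {v // v ∈ M} → K) :
    a ∈ pairCode L D e M ↔ ∃ u ∈ L, (∀ v, v ∉ M → v ≠ e → u v = 0 ∨ u v = D v) ∧
      (u e = 0 ∨ u e = z) ∧ a = fun x => u x.1 := by
  have hr : ∀ v : V, v ∉ Set.range (fun x : {v // v ∈ M} => x.1) ↔ v ∉ M := by
    intro v
    simp
  constructor
  · rintro ⟨u, hu, hk, rfl⟩
    refine ⟨u, hu, ?_, ?_, rfl⟩
    · intro v hv hve
      have := hk v ((hr v).2 hv)
      rw [kf_eq_zero_iff _ _ (h.sig_ne v)] at this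
      rwa [sig, if_neg hve] at this
    · have := hk e ((hr e).2 heM)
      rw [kf_eq_zero_iff _ _ (h.sig_ne e)] at this
      rwa [sig, if_pos rfl] at this
  · rintro ⟨u, hu, h1, h2, rfl⟩
    refine ⟨u, hu, ?_, rfl⟩
    intro v hv
    rw [kf_eq_zero_iff _ _ (h.sig_ne v)]
    by_cases hve : v = e
    · rw [hve, sig, if_pos rfl]
      exact h2
    · rw [sig, if_neg hve]
      exact h1 v ((hr v).1 hv) hve

theorem glob_unique (hP : IsParts L e D P) (h : HypQ L e D)
    (hz : ∀ u ∈ L, ZOnly u → u = 0 ∨ ∀ v, u v = z) {M M' : Finset V}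
    (hM : M ∈ P) (hM' : M' ∈ P) (hne : M' ≠ M) {D' : V → K} (h' : HypQ L e D')
    (hoff : ∀ v, v ∉ M → D' v = D v) : ∀ v, v ≠ e → D v = D' v := by
  rcases h.unique' h' hz with h1 | h1
  · exact h1
  · exfalso
    obtain ⟨w, hw⟩ := Finset.nonempty_iff_ne_empty.2 (hP.mem M' hM').1
    have hwM : w ∉ M := Finset.disjoint_left.1 (hP.disj M' hM' M hM hne) hw
    have hwe : w ≠ e := fun h0 => (hP.mem M' hM').2.1 (h0 ▸ hw)
    have h2 := h1 w hwe
    rw [hoff w hwM] at h2
    have h3 : D w + D w = z := by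
      nth_rewrite 1 [h2]
      rw [add_comm, ← add_assoc, K_add_self, zero_add]
    rw [K_add_self] at h3
    exact absurd h3 (by decide)

theorem glob_noZ (hP : IsParts L e D P) (h : HypQ L e D)
    (hz : ∀ u ∈ L, ZOnly u → u = 0 ∨ ∀ v, u v = z) {M M' : Finset V}
    (hM : M ∈ P) (hM' : M' ∈ P) (hMM : M' ≠ M) {u : V → K} (hu : u ∈ L)
    (hoff : ∀ v, v ∉ M → v ≠ e → u v = 0 ∨ u v = D v)
    (hue : u e = 0 ∨ u e = z) (huM : ∀ v, v ∈ M → (u v).1 = 0) : ∀ v, v ∈ M → u v = 0 := by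
  have heM : e ∉ M := (hP.mem M hM).2.1
  set D' : V → K := fun v => if v ∈ M then D v + u v else D v with hD'
  have hne : ∀ v, v ∈ M → v ≠ e := fun v hv h0 => heM (h0 ▸ hv)
  have hlet : ∀ v, v ∈ M → (D' v).1 = 1 := by
    intro v hv
    rw [hD']
    simp only [if_pos hv]
    rw [Prod.fst_add, h.letter v (hne v hv), huM v hv, add_zero]
  have hw : KD L D' e (pw D e M + u) := by
    refine ⟨L.add_mem (hP.mem M hM).2.2 hu, ?_, ?_⟩
    · intro w hw
      rw [Pi.add_apply, hD']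
      unfold pw
      by_cases hwM : w ∈ M
      · right
        simp only [if_neg hw, if_pos hwM]
      · simp only [if_neg hw, if_neg hwM, zero_add]
        exact hoff w hwM hw
    · rw [Pi.add_apply]
      have : pw D e M e = z := by simp [pw]
      rw [this]
      rcases hue with h1 | h1
      · right; rw [h1, add_zero]
      · left; rw [h1, K_add_self]
  have hoff' : ∀ v, v ∉ M → D' v = D v := by
    intro v hv
    rw [hD']
    simp only [if_neg hv]
  have h' : HypQ L e D' := by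
    refine hyp_change hP h hM D' hoff' hlet ?_
    intro v hv
    refine ⟨_, hw, ?_⟩
    rw [Pi.add_apply]
    unfold pw
    rw [if_neg (hne v hv), if_pos hv]
    intro h0
    have h1 := hlet v hv
    rw [hD'] at h1
    simp only [if_pos hv] at h1
    rw [h0] at h1
    exact absurd h1 (by decide)
  intro v hv
  have h1 := glob_unique hP h hz hM hM' hMM h' hoff' v (hne v hv)
  rw [hD'] at h1
  simp only [if_pos hv] at h1
  have h2 : D v + D v = D v + (D v + u v) := by rw [← h1]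
  rw [K_add_self, ← add_assoc, K_add_self, zero_add] at h2
  exact h2.symm

theorem toParts (hP : IsParts L e D P) : Pool.Agent.H45.TR.Parts L e D P :=
  ⟨fun M hM => (hP.mem M hM).1, fun M hM => (hP.mem M hM).2.1, fun M hM => (hP.mem M hM).2.2,
    hP.disj, hP.cover, hP.union⟩

theorem noz_of_zon (hz : ∀ u ∈ L, ZOnly u → u = 0 ∨ u = fun _ => z) (hc : ∃ c : V, c ≠ e) :
    ∀ u ∈ L, (∀ v, v ≠ e → u v = 0) → u e ≠ z := by
  intro u hu h0 he
  obtain ⟨c, hc⟩ := hc
  rcases hz u hu (by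
    intro v
    by_cases hv : v = e
    · rw [hv, he]; rfl
    · rw [h0 v hv]; rfl) with h1 | h1
  · rw [h1] at he
    exact absurd (show (0 : K) = z from he) (by decide)
  · have h2 := h0 c hc
    rw [h1] at h2
    exact absurd (show z = (0 : K) from h2) (by decide)

theorem glob_noZ_N {h : Finset V → V} (H : HypQ L e D) (hP : IsParts L e D P)
    (hz : ∀ u ∈ L, ZOnly u → u = 0 ∨ ∀ v, u v = z) {M₀ M' : Finset V}
    (hM₀ : M₀ ∈ P) (hM' : M' ∈ P) (hne : M' ≠ M₀) (hh : ∀ M ∈ P.erase M₀, h M ∈ M) :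
    NoZ (N L D (P.erase M₀) h) := by
  intro a ha hza
  obtain ⟨u, hu, hus, rfl⟩ := ha
  have heW : ∀ M ∈ P.erase M₀, e ∉ M := fun M hM => (hP.mem M (Finset.mem_of_mem_erase hM)).2.1
  have hue : (u e).1 = 0 := hza ⟨e, heW⟩
  have hsub : P.erase M₀ ⊆ P := Finset.erase_subset _ _
  have hle : ∀ v, v ∉ M₀ → v ≠ e → u v = 0 ∨ u v = D v := by
    intro v hv hve
    obtain ⟨M, hM, hvM⟩ := hP.cover v hve
    have hMM : M ≠ M₀ := by
      rintro rfl
      exact hv hvM
    exact Pool.Agent.H45.TR.le_D H.iso (toParts hP) hsub H.letter hh hu hue hus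
      ((Pool.Agent.H45.TR.nmem_range_iff _ v).2 ⟨M, Finset.mem_erase.2 ⟨hMM, hM⟩, hvM⟩)
  have h0 : ∀ v, v ∈ M₀ → (u v).1 = 0 := by
    intro v hv
    have hvW : ∀ M ∈ P.erase M₀, v ∉ M := by
      intro M hM hvM
      have hM1 := Finset.mem_erase.1 hM
      exact Finset.disjoint_left.1 (hP.disj M hM1.2 M₀ hM₀ hM1.1) hvM hv
    exact hza ⟨v, hvW⟩
  have hM0 : ∀ v, v ∈ M₀ → u v = 0 :=
    glob_noZ hP H hz hM₀ hM' hne hu hle (K_cases _ hue) h0
  have hKD : KD L D e u := by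
    refine ⟨hu, ?_, K_cases _ hue⟩
    intro v hve
    by_cases hv : v ∈ M₀
    · exact Or.inl (hM0 v hv)
    · exact hle v hv hve
  have hall : ∀ v, v ≠ e → u v = 0 := by
    intro v hve
    obtain ⟨M, hM, hvM⟩ := hP.cover v hve
    by_cases hMM : M = M₀
    · exact hM0 v (hMM ▸ hvM)
    · have hME : M ∈ P.erase M₀ := Finset.mem_erase.2 ⟨hMM, hM⟩
      have h1 : u (h M) = 0 := Pool.Agent.H45.TR.eq_zero_h H.iso (toParts hP) hsub H.letter hh hu hue hus hME
      rcases hP.union u hKD M hM with h2 | h2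
      · have := (mem_sup.1 (h2 (hh M hME))).2
        exact absurd h1 this
      · by_contra hne'
        exact Finset.disjoint_left.1 h2 hvM (mem_sup.2 ⟨hve, hne'⟩)
  have hu0 : u = 0 := by
    funext v
    by_cases hve : v = e
    · rw [hve]
      rcases K_cases _ hue with h1 | h1
      · exact h1
      · exact absurd h1 (H.noz u hu hall)
    · exact hall v hve
  rw [hu0]
  rfl

/-- the number of places is odd -/
theorem card_one (hL : IsCode L) [Nonempty V]
    (hz : ∀ u ∈ L, ZOnly u → u = 0 ∨ u = fun _ => z)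
    (hwc : ∀ u ∈ L, u ≠ 0 → ZFree u → (∃ e : V, ∀ v, v ≠ e → u v ≠ 0) → ∃ g, Splits L u g) :
    ∑ _i : V, (1 : ZMod 2) = 1 := by
  have key : ∀ a : ZMod 2, a ≠ 0 → a = 1 := by decide
  apply key
  intro h0
  obtain ⟨u, hu, h1⟩ := Pool.Agent.H19.G5.exists_first hL hz (fun _ => 1) h0
  obtain ⟨v⟩ := ‹Nonempty V›
  have hne' : ∀ i, u i ≠ 0 := by
    intro i h
    have := h1 i
    rw [h] at this
    exact absurd (show (0 : ZMod 2) = 1 from this) (by decide)
  have hne : u ≠ 0 := fun h => hne' v (congrFun h v)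
  have hf : ZFree u := by
    intro i hi
    have := h1 i
    rw [hi] at this
    exact absurd (show (0 : ZMod 2) = 1 from this) (by decide)
  obtain ⟨g, hg⟩ := hwc u hu hne hf ⟨v, fun i _ => hne' i⟩
  obtain ⟨_, _, _, _, _, _, hg0, _⟩ := Pool.Agent.H19.G5.Splits.cases hg
  exact hne' g hg0

/-- the word with the letters exactly off `f` -/
theorem exists_off (hL : IsCode L)
    (hz1 : (fun _ => z) ∈ L) (hz : ∀ u ∈ L, ZOnly u → u = 0 ∨ u = fun _ => z)
    (hwc : ∀ u ∈ L, u ≠ 0 → ZFree u → (∃ e : V, ∀ v, v ≠ e → u v ≠ 0) → ∃ g, Splits L u g)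
    (f : V) : ∃ u ∈ L, u f = 0 ∧ ∀ i, i ≠ f → (u i).1 = 1 := by
  haveI : Nonempty V := ⟨f⟩
  have hc := card_one hL hz hwc
  have hs : ∑ i, (if i = f then (0 : ZMod 2) else 1) = 0 := by
    have h1 : ∑ i : V, (if i = f then (0 : ZMod 2) else 1)
        = ∑ i : V, ((1 : ZMod 2) + (if i = f then 1 else 0)) := by
      apply Finset.sum_congr rfl
      intro i _
      split_ifs <;> decide
    rw [h1, Finset.sum_add_distrib, hc, Finset.sum_ite_eq' Finset.univ f]
    simp only [Finset.mem_univ, if_true]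
    decide
  obtain ⟨u, hu, h1⟩ := Pool.Agent.H19.G5.exists_first hL hz _ hs
  have hf : (u f).1 = 0 := by rw [h1 f]; simp
  have hi : ∀ i, i ≠ f → (u i).1 = 1 := fun i hi => by rw [h1 i]; simp [hi]
  have key : ∀ a : K, a.1 = 0 → a = 0 ∨ a = z := by decide
  rcases key _ hf with h | h
  · exact ⟨u, hu, h, hi⟩
  · refine ⟨u + fun _ => z, L.add_mem hu hz1, ?_, ?_⟩
    · rw [Pi.add_apply, h]
      exact (by decide : z + z = 0)
    · intro i hif
      rw [Pi.add_apply, Prod.fst_add, hi i hif]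
      decide

theorem start (hL : IsCode L) (hz1 : (fun _ => z) ∈ L)
    (hz : ∀ u ∈ L, ZOnly u → u = 0 ∨ u = fun _ => z)
    (hwc : ∀ u ∈ L, u ≠ 0 → ZFree u → (∃ e : V, ∀ v, v ≠ e → u v ≠ 0) → ∃ g, Splits L u g)
    (e : V)
    (hcov : ∀ D' : V → K, (∀ v, v ≠ e → (D' v).1 = 1) → (∀ v, v ≠ e → ∃ u, KD L D' e u ∧ u v ≠ 0) →
      ∀ u, KD L D' e u → u ≠ 0 → u e = 0 → ∃ g, Splits L u g)
    (hc : ∃ c : V, c ≠ e) : ∃ D, HypQ L e D ∧ D ∈ L ∧ D e = 0 := by
  obtain ⟨w, hwL, hwe, hw1⟩ := exists_off hL hz1 hz hwc e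
  have hw0 : w ≠ 0 := by
    intro h0
    obtain ⟨c, hc⟩ := hc
    have := hw1 c hc
    rw [h0] at this
    exact absurd (show (0 : ZMod 2) = 1 from this) (by decide)
  have hwz : ZFree w := by
    intro v hv
    by_cases hve : v = e
    · rw [hve, hwe] at hv
      exact absurd hv (by decide)
    · have := hw1 v hve
      rw [hv] at this
      exact absurd this (by decide)
  obtain ⟨g, c₁, hc₁, c₂, hc₂, hsum, hg1, hg2, hd⟩ := hwc w hwL hw0 hwz ⟨e, fun v hv h0 => by
    have := hw1 v hv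
    rw [h0] at this
    exact absurd (show (0 : ZMod 2) = 1 from this) (by decide)⟩
  have hge : g = e := by
    by_contra hne
    have h1 := hw1 g hne
    rw [← hsum, Pi.add_apply, hg1, hg2] at h1
    exact absurd h1 (by decide)
  subst hge
  have hval : ∀ v, v ≠ g → (c₁ v = 0 ∨ c₁ v = w v) ∧ (c₂ v = 0 ∨ c₂ v = w v) := by
    intro v hv
    have hs : w v = c₁ v + c₂ v := by rw [← hsum]; rfl
    rcases hd v hv with h1 | h1
    · rw [h1, zero_add] at hs
      exact ⟨Or.inl h1, Or.inr hs.symm⟩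
    · rw [h1, add_zero] at hs
      exact ⟨Or.inr hs.symm, Or.inl h1⟩
  refine ⟨w, ⟨hL.iso, noz_of_zon hz hc, hcov, hw1, ?_⟩, hwL, hwe⟩
  intro v hv
  by_cases h1 : c₁ v = 0
  · refine ⟨c₂, ⟨hc₂, fun v hv => (hval v hv).2, Or.inr hg2⟩, ?_⟩
    intro h2
    have h3 := hw1 v hv
    rw [← hsum, Pi.add_apply, h1, h2] at h3
    exact absurd h3 (by decide)
  · exact ⟨c₁, ⟨hc₁, fun v hv => (hval v hv).1, Or.inr hg1⟩, h1⟩

theorem exists_other (h : HypQ L e D) (hP : IsParts L e D P) (hD : D ∈ L) (hDe : D e = 0)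
    {M : Finset V} (hM : M ∈ P) : ∃ M' ∈ P, M' ≠ M := by
  by_contra hc
  push Not at hc
  have h1 : pw D e M + D ∈ L := L.add_mem (hP.mem M hM).2.2 hD
  refine h.noz _ h1 ?_ ?_
  · intro v hv
    obtain ⟨M', hM', hvM'⟩ := hP.cover v hv
    rw [hc M' hM'] at hvM'
    rw [Pi.add_apply]
    unfold pw
    rw [if_neg hv, if_pos hvM', K_add_self]
  · rw [Pi.add_apply, hDe, add_zero]
    simp [pw]

theorem even_card (h : HypQ L e D) (hP : IsParts L e D P) (hz1 : (fun _ => z) ∈ L)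
    {M : Finset V} (hM : M ∈ P) : ((M.card : ℕ) : ZMod 2) = 0 := by
  have h1 := h.iso _ (hP.mem M hM).2.2 _ hz1
  have heM := (hP.mem M hM).2.1
  have h2 : form (pw D e M) (fun _ => z) = ∑ v, if v ∈ M then (1 : ZMod 2) else 0 := by
    unfold form
    refine Finset.sum_congr rfl fun v _ => ?_
    rw [kf_z_right]
    unfold pw
    by_cases hv : v = e
    · rw [if_pos hv, hv, if_neg heM]; rfl
    · rw [if_neg hv]
      by_cases hvM : v ∈ M
      · rw [if_pos hvM, if_pos hvM]; exact h.letter v hv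
      · rw [if_neg hvM, if_neg hvM]; rfl
  rw [h2, Finset.sum_ite_mem, Finset.univ_inter, Finset.sum_const, nsmul_eq_mul, mul_one] at h1
  exact h1

theorem core {C : Prop} (h : HypQ L e D) (hP : IsParts L e D P) {M0 : Finset V} (hM0 : M0 ∈ P)
    (hmax : ∀ M ∈ P, M.card ≤ M0.card) (hk : ∃ M ∈ P, M ≠ M0)
    (hcode : IsCode (pairCode L D e M0)) (hnoz : NoZ (pairCode L D e M0))
    (hleaf : ∃ l p, Pool.Agent.H80.TB.LeafAt (pairCode L D e M0) l p)
    (heW : ∀ M ∈ P.erase M0, e ∉ M)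
    (hroot : ∀ t : Finset V → V, (∀ M ∈ P.erase M0, t M ∈ M) →
      Pool.Agent.H80.TB.RootLeaf (Pool.Agent.H45.TR.N L D (P.erase M0) t) ⟨e, heW⟩)
    (hEnd : (∀ M ∈ P, M.card ≤ M0.card) → (∃ M ∈ P, M ≠ M0) →
      (∀ u ∈ L, (∀ v, v ∉ M0 → v ≠ e → u v = 0 ∨ u v = D v) → (u e = 0 ∨ u e = z) →
        (∀ v ∈ M0, (u v).1 = 0) → ∀ v ∈ M0, u v = 0) →
      ∀ y : V → V → K,
      (∀ m ∈ M0, y m ∈ L ∧ (y m m).1 = 1 ∧ (∀ v ∈ M0, v ≠ m → (y m v).1 = 0) ∧
        (∀ v, v ∉ M0 → v ≠ e → y m v = 0 ∨ y m v = D v) ∧ (y m e).1 = 0) →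
      (∃ l ∈ M0, ∃ g ∈ M0, g ≠ l ∧ ∀ v ∈ M0, v ≠ l → (y l v = z ↔ v = g)) →
      (∀ h : Finset V → V, (∀ M ∈ P, M ≠ M0 → h M ∈ M) →
        ∃ r ∈ L, (r e).1 = 1 ∧ (∀ v ∈ M0, (r v).1 = 0) ∧ (∃ a ∈ M0, ∀ v ∈ M0, (r v = z ↔ v = a)) ∧
          ∀ M ∈ P, M ≠ M0 → ∀ v ∈ M, kf (r v) (if v = h M then D v + z else D v) = 0) → C) : C := by
  classical
  have heM0 : e ∉ M0 := (hP.mem M0 hM0).2.1
  -- rows
  have hrow : ∀ m : V, ∃ y : V → K, m ∈ M0 → (y ∈ L ∧ (y m).1 = 1 ∧ (∀ v ∈ M0, v ≠ m → (y v).1 = 0) ∧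
      (∀ v, v ∉ M0 → v ≠ e → y v = 0 ∨ y v = D v) ∧ (y e).1 = 0) := by
    intro m
    by_cases hm : m ∈ M0
    · obtain ⟨r, hr, hr1, hr0⟩ := exists_row hcode hnoz ⟨m, hm⟩
      rw [h.mem_pairCode heM0] at hr
      obtain ⟨u, hu, h1, h2, rfl⟩ := hr
      refine ⟨u, fun _ => ⟨hu, hr1, ?_, h1, ?_⟩⟩
      · intro v hv hvm
        exact hr0 ⟨v, hv⟩ (fun h0 => hvm (congrArg Subtype.val h0))
      · rcases h2 with h2 | h2
        · rw [h2]; rfl
        · rw [h2]; rfl
    · exact ⟨0, fun h0 => absurd h0 hm⟩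
  choose y hy using hrow
  -- the row of the leaf
  obtain ⟨l, p, hlp, c, hc, hcl, hcp, hc0⟩ := hleaf
  have hyl := hy l.1 l.2
  have hylc : (fun x : {v // v ∈ M0} => y l.1 x.1) = c := by
    apply eq_of_fst hnoz _ hc
    · intro x
      by_cases hx : x = l
      · rw [hx, hcl]; exact hyl.2.1
      · rw [hyl.2.2.1 x.1 x.2 (fun h0 => hx (Subtype.ext h0))]
        by_cases hxp : x = p
        · rw [hxp, hcp]; rfl
        · rw [hc0 x hx hxp]; rfl
    · rw [h.mem_pairCode heM0]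
      refine ⟨y l.1, hyl.1, hyl.2.2.2.1, ?_, rfl⟩
      exact K_cases _ hyl.2.2.2.2
  have hT := toParts hP
  have hQ : P.erase M0 ⊆ P := Finset.erase_subset _ _
  refine hEnd hmax hk ?_ y (fun m hm => hy m hm)
      ⟨l.1, l.2, p.1, p.2, fun h0 => hlp (Subtype.ext h0).symm, by
        intro v hv hvl
        have h1 := congrFun hylc ⟨v, hv⟩
        simp only at h1
        rw [h1]
        constructor
        · intro h2
          by_contra hvp
          rw [hc0 ⟨v, hv⟩ (fun h0 => hvl (congrArg Subtype.val h0))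
            (fun h0 => hvp (congrArg Subtype.val h0))] at h2
          exact absurd h2 (by decide)
        · intro h2
          have : (⟨v, hv⟩ : {v // v ∈ M0}) = p := Subtype.ext h2
          rw [this]; exact hcp⟩
      (by
        intro t ht
        have ht' : ∀ M ∈ P.erase M0, t M ∈ M := fun M hM =>
          ht M (Finset.mem_of_mem_erase hM) (Finset.ne_of_mem_erase hM)
        obtain ⟨a, hae, r, ⟨u, hu, hus, rfl⟩, hre, hra, hr0⟩ := hroot t ht'
        have inW : ∀ v, v ∈ M0 → ∀ M ∈ P.erase M0, v ∉ M := by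
          intro v hv M hM hvM
          exact Finset.disjoint_left.1 (hP.disj M (hQ hM) M0 hM0 (Finset.ne_of_mem_erase hM)) hvM hv
        refine ⟨u, hu, hre, ?_, ?_, ?_⟩
        · intro v hv
          have hve : (⟨v, inW v hv⟩ : Pool.Agent.H45.TR.W (P.erase M0)) ≠ ⟨e, heW⟩ := fun h0 =>
            heM0 ((show v = e from congrArg Subtype.val h0) ▸ hv)
          by_cases hva : (⟨v, inW v hv⟩ : Pool.Agent.H45.TR.W (P.erase M0)) = a
          · have h1 : u v = z := by rw [← hva] at hra; exact hra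
            rw [h1]; rfl
          · have h1 : u v = 0 := hr0 _ hve hva
            rw [h1]; rfl
        · have hae' : a.1 ≠ e := fun h0 => hae (Subtype.ext h0)
          obtain ⟨M, hM, haM⟩ := hP.cover a.1 hae'
          have hMM : M = M0 := by
            by_contra hne
            exact a.2 M (Finset.mem_erase.2 ⟨hne, hM⟩) haM
          refine ⟨a.1, hMM ▸ haM, ?_⟩
          intro v hv
          have hve : (⟨v, inW v hv⟩ : Pool.Agent.H45.TR.W (P.erase M0)) ≠ ⟨e, heW⟩ := fun h0 =>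
            heM0 ((show v = e from congrArg Subtype.val h0) ▸ hv)
          constructor
          · intro h1
            by_contra hne
            have h2 : u v = 0 := hr0 ⟨v, inW v hv⟩ hve (fun h0 => hne (congrArg Subtype.val h0))
            rw [h2] at h1
            exact absurd h1 (by decide)
          · intro h1
            rw [h1]; exact hra
        · intro M hM hne v hv
          have hMQ : M ∈ P.erase M0 := Finset.mem_erase.2 ⟨hne, hM⟩
          have h1 := hus v ((Pool.Agent.H45.TR.nmem_range_iff _ v).2 ⟨M, hMQ, hv⟩)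
          by_cases hvt : v = t M
          · rw [if_pos hvt]
            rw [hvt, Pool.Agent.H45.TR.sg_h hMQ] at h1
            rw [hvt]
            exact h1
          · rw [if_neg hvt]
            rw [Pool.Agent.H45.TR.sg_ne hT hQ ht' hMQ hv hvt] at h1
            exact h1)
  intro u hu h1 h2 h3 v hv
  have h4 : (fun x : {v // v ∈ M0} => u x.1) ∈ pairCode L D e M0 := by
    rw [h.mem_pairCode heM0]
    exact ⟨u, hu, h1, h2, rfl⟩
  exact congrFun (hnoz _ h4 (fun x => h3 x.1 x.2)) ⟨v, hv⟩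

theorem part_full (h : HypQ L e D) (hP : IsParts L e D P) {M0 : Finset V} (hM0 : M0 ∈ P)
    {t : Finset V → V} (ht : ∀ M ∈ P.erase M0, t M ∈ M) (heW : ∀ M ∈ P.erase M0, e ∉ M)
    {H : W (P.erase M0) → W (P.erase M0) → ZMod 2} (hH : IsMat (N L D (P.erase M0) t) H)
    (S : Finset (W (P.erase M0))) (hS : S.Nonempty) (heS : (⟨e, heW⟩ : W (P.erase M0)) ∉ S)
    (hcut : ∀ x ∈ S, ∀ y, y ∉ S → y ≠ ⟨e, heW⟩ → H x y = 0)
    (hodd : ∑ x ∈ S, H ⟨e, heW⟩ x = 1) : ∀ x, x ≠ ⟨e, heW⟩ → x ∈ S := by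
  classical
  have hT := toParts hP
  have hQ : P.erase M0 ⊆ P := Finset.erase_subset _ _
  have inM0 : ∀ w : W (P.erase M0), w ≠ ⟨e, heW⟩ → w.1 ∈ M0 := by
    intro w hw
    have hwe : w.1 ≠ e := fun h0 => hw (Subtype.ext h0)
    obtain ⟨M, hM, hwM⟩ := hP.cover w.1 hwe
    by_contra hne
    refine w.2 M (Finset.mem_erase.2 ⟨?_, hM⟩) hwM
    rintro rfl
    exact hne hwM
  -- the total word of the part
  set tw : W (P.erase M0) → K := fun w => pw D e M0 w.1 with htw
  have htwN : tw ∈ N L D (P.erase M0) t := by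
    refine ⟨pw D e M0, (hP.mem M0 hM0).2.2, ?_, rfl⟩
    intro v hv
    obtain ⟨M, hM, hvM⟩ := (Pool.Agent.H45.TR.nmem_range_iff _ v).1 hv
    have hve : v ≠ e := fun h0 => heW M hM (h0 ▸ hvM)
    have hvM0 : v ∉ M0 := fun h0 =>
      Finset.disjoint_left.1 (hP.disj M (hQ hM) M0 hM0 (Finset.ne_of_mem_erase hM)) hvM h0
    have : pw D e M0 v = 0 := by
      unfold pw
      rw [if_neg hve, if_neg hvM0]
    rw [this, kf_zero_left]
  have htw0 : tw ⟨e, heW⟩ = z := by simp [htw, pw]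
  have htw1 : ∀ w, w ≠ (⟨e, heW⟩ : W (P.erase M0)) → tw w = D w.1 := by
    intro w hw
    have hwe : w.1 ≠ e := fun h0 => hw (Subtype.ext h0)
    show pw D e M0 w.1 = _
    unfold pw
    rw [if_neg hwe, if_pos (inM0 w hw)]
  -- the word of `S`
  set u : W (P.erase M0) → K := fun v => (if v ∈ S then 1 else 0, ∑ x ∈ S, H v x) with hu
  have huN : u ∈ N L D (P.erase M0) t := by
    rw [hH.2]
    intro v
    show ∑ x ∈ S, H v x = ∑ w, H v w * (if w ∈ S then 1 else 0)
    simp [mul_ite, Finset.sum_ite_mem]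
  have huS : ∀ x ∈ S, u x = D x.1 := by
    intro x hx
    have hxe : x ≠ ⟨e, heW⟩ := fun h0 => heS (h0 ▸ hx)
    rw [← htw1 x hxe]
    apply Prod.ext
    · show (if x ∈ S then (1 : ZMod 2) else 0) = _
      rw [if_pos hx, htw1 x hxe]
      exact (h.letter x.1 (fun h0 => hxe (Subtype.ext h0))).symm
    · rw [(hH.2 tw).1 htwN x, (hH.2 u).1 huN x]
      refine Finset.sum_congr rfl fun w _ => ?_
      show H x w * (if w ∈ S then (1 : ZMod 2) else 0) = _
      by_cases hwS : w ∈ S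
      · have hwe : w ≠ ⟨e, heW⟩ := fun h0 => heS (h0 ▸ hwS)
        rw [if_pos hwS, htw1 w hwe, h.letter w.1 (fun h0 => hwe (Subtype.ext h0))]
      · rw [if_neg hwS]
        by_cases hwe : w = ⟨e, heW⟩
        · rw [hwe, htw0]; simp [z]
        · rw [hcut x hx w hwS hwe]; simp
  have hu0 : ∀ y, y ∉ S → y ≠ ⟨e, heW⟩ → u y = 0 := by
    intro y hy hye
    apply Prod.ext
    · show (if y ∈ S then (1 : ZMod 2) else 0) = 0
      rw [if_neg hy]
    · show ∑ x ∈ S, H y x = 0
      apply Finset.sum_eq_zero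
      intro x hx
      rw [hH.1 y x]
      exact hcut x hx y hy hye
  have hue : (u ⟨e, heW⟩).1 = 0 := by
    show (if (⟨e, heW⟩ : W (P.erase M0)) ∈ S then (1 : ZMod 2) else 0) = 0
    rw [if_neg heS]
  obtain ⟨u', hu'L, hus, hu'⟩ := huN
  have hval : ∀ w, u' w.1 = u w := fun w => (congrFun hu' w).symm
  have hu'e : (u' e).1 = 0 := by
    have := hval ⟨e, heW⟩
    rw [this]; exact hue
  have hk : KD L D e u' := by
    refine ⟨hu'L, ?_, K_cases _ hu'e⟩
    intro v hv
    by_cases hvR : v ∈ Set.range (Subtype.val : W (P.erase M0) → V)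
    · obtain ⟨w, rfl⟩ := hvR
      rw [hval w]
      by_cases hwS : w ∈ S
      · exact Or.inr (huS w hwS)
      · exact Or.inl (hu0 w hwS (fun h0 => hv (congrArg Subtype.val h0)))
    · exact Pool.Agent.H45.TR.le_D h.iso hT hQ h.letter ht hu'L hu'e hus hvR
  intro x hx
  obtain ⟨x0, hx0⟩ := hS
  have hx0e : x0 ≠ ⟨e, heW⟩ := fun h0 => heS (h0 ▸ hx0)
  have hx0ne : x0.1 ≠ e := fun h0 => hx0e (Subtype.ext h0)
  rcases hP.union u' hk M0 hM0 with h1 | h1
  · have h2 := (mem_sup.1 (h1 (inM0 x hx))).2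
    by_contra hxS
    rw [hval x] at h2
    exact h2 (hu0 x hxS hx)
  · exfalso
    refine Finset.disjoint_left.1 h1 (inM0 x0 hx0e) (mem_sup.2 ⟨hx0ne, ?_⟩)
    rw [hval x0, huS x0 hx0]
    exact h.D_ne hx0ne

theorem root_nb (h : HypQ L e D) (hP : IsParts L e D P) {M0 : Finset V} (hM0 : M0 ∈ P)
    {t : Finset V → V} (ht : ∀ M ∈ P.erase M0, t M ∈ M) (heW : ∀ M ∈ P.erase M0, e ∉ M)
    {H : W (P.erase M0) → W (P.erase M0) → ZMod 2} (hH : IsMat (N L D (P.erase M0) t) H)
    (hT : (graph (N L D (P.erase M0) t)).IsTree) (hnt : ∃ m : W (P.erase M0), m ≠ ⟨e, heW⟩) :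
    ∃ a, a ≠ ⟨e, heW⟩ ∧ ∀ b, (graph (N L D (P.erase M0) t)).Adj ⟨e, heW⟩ b ↔ b = a := by
  classical
  set G := graph (N L D (P.erase M0) t) with hG
  set r : W (P.erase M0) := ⟨e, heW⟩ with hr
  have hex : ∃ a, G.Adj r a := by
    obtain ⟨m, hm⟩ := hnt
    obtain ⟨p⟩ := hT.connected.preconnected r m
    cases p with
    | nil => exact absurd rfl hm
    | cons hadj _ => exact ⟨_, hadj⟩
  obtain ⟨a, ha⟩ := hex
  have hbr : ¬ (G.deleteEdges {s(a, r)}).Reachable a r := by
    have := (SimpleGraph.isAcyclic_iff_forall_adj_isBridge.1 hT.IsAcyclic) ha.symm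
    rwa [SimpleGraph.isBridge_iff] at this
  set S : Finset (W (P.erase M0)) := univ.filter fun x => (G.deleteEdges {s(a, r)}).Reachable a x
    with hSdef
  have memS : ∀ x, x ∈ S ↔ (G.deleteEdges {s(a, r)}).Reachable a x := by
    intro x
    rw [hSdef, Finset.mem_filter]
    exact ⟨fun h0 => h0.2, fun h0 => ⟨Finset.mem_univ _, h0⟩⟩
  have haS : a ∈ S := (memS a).2 (SimpleGraph.Reachable.refl a)
  have hrS : r ∉ S := fun h0 => hbr ((memS r).1 h0)
  have hstep : ∀ x ∈ S, ∀ y, G.Adj x y → y ∉ S → x = a ∧ y = r := by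
    intro x hx y hxy hy
    by_cases hs : s(x, y) = s(a, r)
    · rcases Sym2.eq_iff.1 hs with h1 | h1
      · exact h1
      · exact absurd (h1.1 ▸ hx) hrS
    · exfalso
      apply hy
      rw [memS]
      refine ((memS x).1 hx).trans (SimpleGraph.Adj.reachable ?_)
      rw [SimpleGraph.deleteEdges_adj]
      exact ⟨hxy, fun h0 => hs h0⟩
  have hall := part_full h hP hM0 ht heW hH S ⟨a, haS⟩ hrS (by
    intro x hx y hy hyr
    by_contra hne
    have h1 : H x y = 1 := by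
      revert hne
      generalize H x y = q
      revert q
      decide
    have hxy : x ≠ y := fun h0 => hy (h0 ▸ hx)
    exact hyr (hstep x hx y ((adj_iff hH x y).2 ⟨hxy, h1⟩) hy).2) (by
    rw [Finset.sum_eq_single a]
    · exact ((adj_iff hH r a).1 ha).2
    · intro x hx hxa
      by_contra hne
      have h1 : H r x = 1 := by
        revert hne
        generalize H r x = q
        revert q
        decide
      have hrx : r ≠ x := fun h0 => hrS (h0 ▸ hx)
      exact hxa (hstep x hx r ((adj_iff hH r x).2 ⟨hrx, h1⟩).symm hrS).1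
    · intro h0; exact absurd haS h0)
  refine ⟨a, fun h0 => hrS (h0 ▸ haS), ?_⟩
  intro b
  constructor
  · intro hb
    have hbr' : b ≠ r := fun h0 => hb.ne h0.symm
    exact (hstep b (hall b hbr') r hb.symm hrS).1
  · rintro rfl
    exact ha

theorem one_of_ne (q : ZMod 2) (hq : q ≠ 0) : q = 1 := by
  revert q; decide

theorem row_of_nb {X : Type} [Fintype X] {B : Submodule (ZMod 2) (X → K)} (hB : IsCode B) (hz : NoZ B)
    {H : X → X → ZMod 2} (hH : IsMat B H) {r a : X} (hra : r ≠ a) (hnb : ∀ b, (graph B).Adj r b ↔ b = a) :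
    ∃ c ∈ B, (c r).1 = 1 ∧ c a = z ∧ ∀ v, v ≠ r → v ≠ a → c v = 0 := by
  obtain ⟨c, hc, hc1, hc0⟩ := exists_row hB hz r
  have h2 : ∀ v, (c v).2 = H v r := by
    intro v
    rw [(hH.2 c).1 hc v, Finset.sum_eq_single r]
    · rw [hc1, mul_one]
    · intro i _ hi
      rw [hc0 i hi, mul_zero]
    · intro h; exact absurd (Finset.mem_univ r) h
  refine ⟨c, hc, hc1, ?_, ?_⟩
  · apply Prod.ext
    · exact hc0 a hra.symm
    · rw [h2 a]
      exact ((adj_iff hH a r).1 ((hnb a).2 rfl).symm).2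
  · intro v hv hva
    apply Prod.ext
    · exact hc0 v hv
    · rw [h2 v]
      by_contra hne
      exact hva ((hnb v).1 ((adj_iff hH v r).2 ⟨hv, one_of_ne _ hne⟩).symm)

theorem adapt {C : Prop} (hL : IsCode L) (hz1 : (fun _ => z) ∈ L)
    (hz : ∀ u ∈ L, ZOnly u → u = 0 ∨ u = fun _ => z) (hcard : 2 ≤ Fintype.card V)
    (hwc : ∀ u ∈ L, u ≠ 0 → ZFree u → (∃ e : V, ∀ v, v ≠ e → u v ≠ 0) → ∃ g, Splits L u g)
    (hcov : ∀ (e : V) (D' : V → K), (∀ v, v ≠ e → (D' v).1 = 1) →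
      (∀ v, v ≠ e → ∃ u, KD L D' e u ∧ u v ≠ 0) →
      ∀ u, KD L D' e u → u ≠ 0 → u e = 0 → ∃ g, Splits L u g)
    (hTree : ∀ (e : V) (D : V → K) (P : Finset (Finset V)) (M0 : Finset V) (t : Finset V → V),
      HypQ L e D → D ∈ L → D e = 0 → IsParts L e D P → M0 ∈ P → (∃ M ∈ P, M ≠ M0) →
      (∀ M ∈ P.erase M0, t M ∈ M) → IsCode (N L D (P.erase M0) t) → NoZ (N L D (P.erase M0) t) →
      (graph (N L D (P.erase M0) t)).IsTree)
    (hEnd : ∀ (e : V) (D : V → K) (P : Finset (Finset V)) (M0 : Finset V),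
      HypQ L e D → D ∈ L → D e = 0 → IsParts L e D P → M0 ∈ P → (∀ M ∈ P, M.card ≤ M0.card) → (∃ M ∈ P, M ≠ M0) →
      (∀ u ∈ L, (∀ v, v ∉ M0 → v ≠ e → u v = 0 ∨ u v = D v) → (u e = 0 ∨ u e = z) →
        (∀ v ∈ M0, (u v).1 = 0) → ∀ v ∈ M0, u v = 0) →
      ∀ y : V → V → K,
      (∀ m ∈ M0, y m ∈ L ∧ (y m m).1 = 1 ∧ (∀ v ∈ M0, v ≠ m → (y m v).1 = 0) ∧
        (∀ v, v ∉ M0 → v ≠ e → y m v = 0 ∨ y m v = D v) ∧ (y m e).1 = 0) →
      (∃ l ∈ M0, ∃ g ∈ M0, g ≠ l ∧ ∀ v ∈ M0, v ≠ l → (y l v = z ↔ v = g)) →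
      (∀ h : Finset V → V, (∀ M ∈ P, M ≠ M0 → h M ∈ M) →
        ∃ r ∈ L, (r e).1 = 1 ∧ (∀ v ∈ M0, (r v).1 = 0) ∧ (∃ a ∈ M0, ∀ v ∈ M0, (r v = z ↔ v = a)) ∧
          ∀ M ∈ P, M ≠ M0 → ∀ v ∈ M, kf (r v) (if v = h M then D v + z else D v) = 0) → C) : C := by
  classical
  haveI : Nontrivial V := Fintype.one_lt_card_iff_nontrivial.1 (by omega)
  obtain ⟨e⟩ : Nonempty V := inferInstance
  obtain ⟨c0, hc0⟩ := exists_ne e
  obtain ⟨D, h, hD, hDe⟩ := start hL hz1 hz hwc e (hcov e) ⟨c0, hc0⟩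
  obtain ⟨P, hP⟩ := h.exists_parts
  have hPne : P.Nonempty := by
    obtain ⟨M, hM, -⟩ := hP.cover c0 hc0
    exact ⟨M, hM⟩
  obtain ⟨M0, hM0, hmax⟩ := Finset.exists_max_image P Finset.card hPne
  obtain ⟨M1, hM1, hM10⟩ := exists_other h hP hD hDe hM0
  have hz' : ∀ u ∈ L, ZOnly u → u = 0 ∨ ∀ v, u v = z := by
    intro u hu h0
    rcases hz u hu h0 with h1 | h1
    · exact Or.inl h1
    · exact Or.inr fun v => congrFun h1 v
  have hparts := toParts hP
  have hQ : P.erase M0 ⊆ P := Finset.erase_subset _ _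
  have heW : ∀ M ∈ P.erase M0, e ∉ M := fun M hM => (hP.mem M (hQ hM)).2.1
  have heM0 := (hP.mem M0 hM0).2.1
  have inW : ∀ v, v ∈ M0 → ∀ M ∈ P.erase M0, v ∉ M := by
    intro v hv M hM hvM
    exact Finset.disjoint_left.1 (hP.disj M (hQ hM) M0 hM0 (Finset.ne_of_mem_erase hM)) hvM hv
  obtain ⟨m0, hm0⟩ := Finset.nonempty_iff_ne_empty.2 (hP.mem M0 hM0).1
  have hnt : ∃ m : W (P.erase M0), m ≠ ⟨e, heW⟩ :=
    ⟨⟨m0, inW m0 hm0⟩, fun h0 => heM0 ((show m0 = e from congrArg Subtype.val h0) ▸ hm0)⟩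
  -- the minors
  have hN : ∀ t : Finset V → V, (∀ M ∈ P.erase M0, t M ∈ M) →
      IsCode (N L D (P.erase M0) t) ∧ NoZ (N L D (P.erase M0) t) ∧
        (graph (N L D (P.erase M0) t)).IsTree := by
    intro t ht
    have h1 := Pool.Agent.H45.TR.isCode (h := t) hL hparts hQ h.letter
    have h2 := glob_noZ_N h hP hz' hM0 hM1 hM10 ht
    exact ⟨h1, h2, hTree e D P M0 t h hD hDe hP hM0 ⟨M1, hM1, hM10⟩ ht h1 h2⟩
  have hcode : IsCode (pairCode L D e M0) :=
    minor_isCode hL Subtype.val_injective (fun v _ => h.sig_ne v)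
  -- some transversal
  obtain ⟨t, ht⟩ : ∃ t : Finset V → V, ∀ M ∈ P.erase M0, t M ∈ M := by
    refine ⟨fun M => if hM : M.Nonempty then hM.choose else e, ?_⟩
    intro M hM
    have hne : M.Nonempty := Finset.nonempty_iff_ne_empty.2 (hP.mem M (hQ hM)).1
    simp only [dif_pos hne]
    exact hne.choose_spec
  obtain ⟨h1, h2, h3⟩ := hN t ht
  obtain ⟨H, hH0⟩ := exists_matrix h1 h2
  have hH : IsMat (N L D (P.erase M0) t) H := hH0
  have lower : ∀ u ∈ L, (u e).1 = 0 →
      (∀ v, v ∉ Set.range (Subtype.val : W (P.erase M0) → V) → kf (u v) (sg D (P.erase M0) t v) = 0) →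
      (fun x : {v // v ∈ M0} => u x.1) ∈ pairCode L D e M0 := by
    intro u hu hue hus
    rw [h.mem_pairCode heM0]
    refine ⟨u, hu, ?_, K_cases _ hue, rfl⟩
    intro v hv hve
    obtain ⟨M, hM, hvM⟩ := hP.cover v hve
    have hMne : M ≠ M0 := by
      rintro rfl
      exact hv hvM
    exact Pool.Agent.H45.TR.le_D h.iso hparts hQ h.letter ht hu hue hus
      ((Pool.Agent.H45.TR.nmem_range_iff _ v).2 ⟨M, Finset.mem_erase.2 ⟨hMne, hM⟩, hvM⟩)
  -- no `{0,z}`-words in the pair code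
  have hnoz : NoZ (pairCode L D e M0) := by
    intro a ha hza
    rw [h.mem_pairCode heM0] at ha
    obtain ⟨u, hu, hu1, hu2, rfl⟩ := ha
    funext x
    exact glob_noZ hP h hz' hM0 hM1 hM10 hu hu1 hu2 (fun v hv => hza ⟨v, hv⟩) x.1 x.2
  refine core h hP hM0 hmax ⟨M1, hM1, hM10⟩ hcode hnoz ?_ heW ?_ (hEnd e D P M0 h hD hDe hP hM0)
  · -- a leaf of the pair code
    set G := graph (N L D (P.erase M0) t) with hG
    haveI : Nontrivial (W (P.erase M0)) := by
      obtain ⟨m, hm⟩ := hnt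
      exact ⟨m, ⟨e, heW⟩, hm⟩
    obtain ⟨l, hl, hldeg⟩ : ∃ l : W (P.erase M0), l ≠ ⟨e, heW⟩ ∧ G.degree l = 1 := by
      obtain ⟨u, v, huv, hu1, hv1⟩ := h3.exists_ne_and_degree_eq_one
      by_cases hu : u = ⟨e, heW⟩
      · exact ⟨v, fun h0 => huv (hu.trans h0.symm), hv1⟩
      · exact ⟨u, hu, hu1⟩
    obtain ⟨p, hp, hpu⟩ := SimpleGraph.degree_eq_one_iff_existsUnique_adj.1 hldeg
    have hlp : l ≠ p := hp.ne
    have hnb : ∀ b, G.Adj l b ↔ b = p := fun b => ⟨fun hb => hpu b hb, fun hb => hb ▸ hp⟩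
    have hlM0 : l.1 ∈ M0 := by
      have hle : l.1 ≠ e := fun h0 => hl (Subtype.ext h0)
      obtain ⟨M, hM, hlM⟩ := hP.cover l.1 hle
      by_contra hne
      refine l.2 M (Finset.mem_erase.2 ⟨?_, hM⟩) hlM
      rintro rfl
      exact hne hlM
    have hpe : p ≠ ⟨e, heW⟩ := by
      intro hpe
      have hall := part_full h hP hM0 ht heW hH {l} (Finset.singleton_nonempty l)
        (fun h0 => hl (Finset.mem_singleton.1 h0).symm) (by
          intro x hx y hy hye
          rw [Finset.mem_singleton.1 hx]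
          by_contra hne
          have hly : l ≠ y := fun h0 => hy (Finset.mem_singleton.2 h0.symm)
          exact hye (((hnb y).1 ((adj_iff hH l y).2 ⟨hly, one_of_ne _ hne⟩)).trans hpe)) (by
          rw [Finset.sum_singleton, ← hpe]
          exact ((adj_iff hH p l).1 hp.symm).2)
      have hM0l : M0 = {l.1} := by
        ext v
        rw [Finset.mem_singleton]
        constructor
        · intro hv
          have := hall ⟨v, inW v hv⟩ (fun h0 => heM0 ((show v = e from congrArg Subtype.val h0) ▸ hv))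
          exact congrArg Subtype.val (Finset.mem_singleton.1 this)
        · intro hv
          rw [hv]; exact hlM0
      have hev := even_card h hP hz1 hM0
      rw [hM0l, Finset.card_singleton] at hev
      exact absurd hev (by decide)
    have hpM0 : p.1 ∈ M0 := by
      have hpe' : p.1 ≠ e := fun h0 => hpe (Subtype.ext h0)
      obtain ⟨M, hM, hpM⟩ := hP.cover p.1 hpe'
      by_contra hne
      refine p.2 M (Finset.mem_erase.2 ⟨?_, hM⟩) hpM
      rintro rfl
      exact hne hpM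
    obtain ⟨c, ⟨u, hu, hus, rfl⟩, hcl, hcp, hc0'⟩ := row_of_nb h1 h2 hH hlp hnb
    have hue : (u e).1 = 0 := by
      have := hc0' ⟨e, heW⟩ (Ne.symm hl) (Ne.symm hpe)
      have h5 : u e = 0 := this
      rw [h5]; rfl
    refine ⟨⟨l.1, hlM0⟩, ⟨p.1, hpM0⟩, fun h0 => hlp (Subtype.ext (Subtype.mk.inj h0)),
      fun x => u x.1, lower u hu hue hus, hcl, hcp, ?_⟩
    rintro ⟨v, hv⟩ hvl hvp
    exact hc0' ⟨v, inW v hv⟩ (fun h0 => hvl (Subtype.ext (show v = l.1 from congrArg Subtype.val h0)))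
      (fun h0 => hvp (Subtype.ext (show v = p.1 from congrArg Subtype.val h0)))
  · intro t' ht'
    obtain ⟨g1, g2, g3⟩ := hN t' ht'
    obtain ⟨H', hH0'⟩ := exists_matrix g1 g2
    have hH' : IsMat (N L D (P.erase M0) t') H' := hH0'
    obtain ⟨a, hae, hnb⟩ := root_nb h hP hM0 ht' heW hH' g3 hnt
    obtain ⟨c, hc, hc1, hca, hc0'⟩ := row_of_nb g1 g2 hH' (Ne.symm hae) hnb
    exact ⟨a, hae, c, hc, hc1, hca, hc0'⟩

end Pool.Agent.H16.FQ
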