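import Pool.Agent.H16.FQ.Adapt
import Pool.Agent.H31.Q.Defs

set_option autoImplicit false

/-!
The words of a covered state split (MP_a46c6f_co, full Q1), from the sides of the words.
-/

namespace Pool.Agent.H16.FQ

open Finset hiding mem_sup sup
open Pool.Agent.H98.Code
open Pool.Agent.H26.TR (KD K_add_self K_cases)
open Pool.Agent.H31.Q (Sides)

variable {V : Type} [Fintype V] [DecidableEq V]
variable {L : Submodule (ZMod 2) (V → K)} {e : V} {D : V → K}
variable {S : (V → K) → Finset V → Prop}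

omit [DecidableEq V] in
/-- a word of a covered state which is `0` at `e` can only split at `e` -/
theorem split_of (hiso : ∀ u ∈ L, ∀ w ∈ L, form u w = 0) (hlet : ∀ v, v ≠ e → (D v).1 = 1)
    (hfull : ∀ v, v ≠ e → ∃ u, KD L D e u ∧ u v ≠ 0)
    {u : V → K} (hu : KD L D e u) (hue : u e = 0) (hs : ∃ g, Splits L u g) :
    ∃ c₁ c₂, KD L D e c₁ ∧ KD L D e c₂ ∧ c₁ e = z ∧ c₂ e = z ∧ u = c₁ + c₂ ∧
      ∀ v, v ≠ e → c₁ v = 0 ∨ c₂ v = 0 := by
  obtain ⟨g, c₁, hc₁, c₂, hc₂, hsum', hg1, hg2, hd⟩ := hs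
  have hsum : u = c₁ + c₂ := hsum'.symm
  have hval : ∀ v, v ≠ g → (c₁ v = 0 ∨ c₁ v = u v) ∧ (c₂ v = 0 ∨ c₂ v = u v) := by
    intro v hv
    have hs : u v = c₁ v + c₂ v := by rw [hsum]; rfl
    rcases hd v hv with h1 | h1
    · rw [h1, zero_add] at hs
      exact ⟨Or.inl h1, Or.inr hs.symm⟩
    · rw [h1, add_zero] at hs
      exact ⟨Or.inr hs.symm, Or.inl h1⟩
  have hge : g = e := by
    by_contra hne
    obtain ⟨k, hk, hkg⟩ := hfull g hne
    have hkD : k g = D g := by
      rcases hk.2.1 g hne with h1 | h1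
      · exact absurd h1 hkg
      · exact h1
    have hform := hiso c₁ hc₁ k hk.1
    have hone : ∑ v, kf (c₁ v) (k v) = kf (c₁ g) (k g) := by
      apply Finset.sum_eq_single g
      · intro v _ hv
        by_cases hve : v = e
        · have : c₁ v = 0 := by
            rcases (hval v hv).1 with h1 | h1
            · exact h1
            · rw [h1, hve, hue]
          rw [this]; simp [kf]
        · have h1 : c₁ v = 0 ∨ c₁ v = D v := by
            rcases (hval v hv).1 with h1 | h1
            · exact Or.inl h1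
            · rcases hu.2.1 v hve with h2 | h2
              · left; rw [h1, h2]
              · right; rw [h1, h2]
          rcases h1 with h1 | h1
          · rw [h1]; simp [kf]
          · rcases hk.2.1 v hve with h2 | h2
            · rw [h2]; simp [kf]
            · rw [h1, h2]
              unfold kf
              rw [mul_comm]
              exact CharTwo.add_self_eq_zero _
      · intro hg'
        exact absurd (Finset.mem_univ g) hg'
    unfold form at hform
    rw [hone, hg1, hkD] at hform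
    have hl := hlet g hne
    unfold kf z at hform
    rw [hl] at hform
    exact absurd hform (by simp)
  subst hge
  refine ⟨c₁, c₂, ⟨hc₁, ?_, Or.inr hg1⟩, ⟨hc₂, ?_, Or.inr hg2⟩, hg1, hg2, hsum, hd⟩
  · intro v hv
    rcases (hval v hv).1 with h1 | h1
    · exact Or.inl h1
    · rw [h1]; exact hu.2.1 v hv
  · intro v hv
    rcases (hval v hv).2 with h1 | h1
    · exact Or.inl h1
    · rw [h1]; exact hu.2.1 v hv

theorem KD_zfree (hlet : ∀ v, v ≠ e → (D v).1 = 1) {u : V → K} (hu : KD L D e u) (hue : u e = 0) :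
    ZFree u := by
  intro v hv1
  by_cases hv : v = e
  · rw [hv, hue] at hv1
    exact absurd hv1 (by decide)
  · rcases hu.2.1 v hv with h1 | h1
    · rw [h1] at hv1
      exact absurd hv1 (by decide)
    · have := hlet v hv
      rw [← h1, hv1] at this
      exact absurd this (by decide)

theorem cov_aux (hS : Sides L S) (hiso : ∀ u ∈ L, ∀ w ∈ L, form u w = 0)
    (hlet : ∀ v, v ≠ e → (D v).1 = 1) (hfull : ∀ v, v ≠ e → ∃ u, KD L D e u ∧ u v ≠ 0) :
    ∀ (n : ℕ) (u : V → K) (Y : Finset V), Y.card = n → S u Y → e ∉ Y → KD L D e u → u ≠ 0 → u e = 0 →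
      ∃ g, Splits L u g := by
  intro n
  induction n using Nat.strong_induction_on with
  | _ n ih =>
    intro u Y hn hSu heY hu hu0 hue
    have huD : ∀ v, u v ≠ 0 → v ≠ e ∧ u v = D v := by
      intro v hv
      have hve : v ≠ e := by
        rintro rfl
        exact hv hue
      rcases hu.2.1 v hve with h1 | h1
      · exact absurd h1 hv
      · exact ⟨hve, h1⟩
    have hcomp : ∀ k, KD L D e k → ∀ v, u v ≠ 0 → k v = 0 ∨ k v = u v := by
      intro k hk v hv
      obtain ⟨hve, h1⟩ := huD v hv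
      rw [h1]
      exact hk.2.1 v hve
    by_cases hY : Y = ∅
    · subst hY
      exact hS.wc u hSu (KD_zfree hlet hu hue) hu0
    obtain ⟨y, hy⟩ := Finset.nonempty_iff_ne_empty.2 hY
    have hye : y ≠ e := fun h0 => heY (h0 ▸ hy)
    obtain ⟨k, hk, hky⟩ := hfull y hye
    obtain ⟨k', hk', e1, e2, e3, ⟨Y', hY'Y, hSk'⟩, -⟩ := hS.part u Y hSu k hk.1 (hcomp k hk)
    have hk'e : k' e = 0 := e2 e hue heY
    have hk'D : KD L D e k' := by
      refine ⟨hk', ?_, Or.inl hk'e⟩
      intro v hv
      by_cases hvY : v ∈ Y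
      · rw [e1 v hvY]; exact hk.2.1 v hv
      · by_cases huv : u v = 0
        · exact Or.inl (e2 v huv hvY)
        · rw [← (huD v huv).2]
          exact e3 v huv
    have hk'y : k' y ≠ 0 := by rw [e1 y hy]; exact hky
    have hk'0 : k' ≠ 0 := fun h0 => hk'y (congrFun h0 y)
    have hyY' : y ∉ Y' := fun h0 => hk'y ((hS.mem k' Y' hSk').2 y h0)
    have hlt : Y'.card < n := by
      rw [← hn]
      exact Finset.card_lt_card ⟨hY'Y, fun h0 => hyY' (h0 hy)⟩
    have hsp := ih _ hlt k' Y' rfl hSk' (fun h0 => heY (hY'Y h0)) hk'D hk'0 hk'e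
    obtain ⟨c₁, c₂, hc₁, hc₂, he1, he2, hsum, hd⟩ := split_of hiso hlet hfull hk'D hk'e hsp
    obtain ⟨c', hc', f1, f2, f3, -, -⟩ := hS.part u Y hSu c₁ hc₁.1 (hcomp c₁ hc₁)
    have hval : ∀ v, v ≠ e → (c₁ + c') v = 0 ∨ (c₁ + c') v = u v := by
      intro v hv
      rw [Pi.add_apply]
      by_cases hvY : v ∈ Y
      · left
        rw [f1 v hvY, K_add_self]
      · by_cases huv : u v = 0
        · left
          rw [f2 v huv hvY, add_zero]
          have h1 : k' v = 0 := e2 v huv hvY
          rw [hsum, Pi.add_apply] at h1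
          rcases hd v hv with h2 | h2
          · exact h2
          · rw [h2, add_zero] at h1; exact h1
        · have h1 := hcomp c₁ hc₁ v huv
          have h2 := f3 v huv
          rcases h1 with h1 | h1 <;> rcases h2 with h2 | h2 <;> rw [h1, h2]
          · left; rw [add_zero]
          · right; rw [zero_add]
          · right; rw [add_zero]
          · left; rw [K_add_self]
    have hce : (c₁ + c') e = z := by
      rw [Pi.add_apply, he1, f2 e hue heY, add_zero]
    refine ⟨e, c₁ + c', L.add_mem hc₁.1 hc', u + (c₁ + c'), L.add_mem hu.1 (L.add_mem hc₁.1 hc'), ?_,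
      hce, ?_, ?_⟩
    · rw [add_comm u, ← add_assoc]
      have : (c₁ + c') + (c₁ + c') = 0 := by
        funext v
        exact K_add_self _
      rw [this, zero_add]
    · rw [Pi.add_apply, hce, hue, zero_add]
    · intro v hv
      rcases hval v hv with h1 | h1
      · exact Or.inl h1
      · right
        rw [Pi.add_apply, h1, K_add_self]

/-- the side without `e` -/
theorem side_off (hS : Sides L S) {u : V → K} (hu : u ∈ L) (hue : u e = 0) :
    ∃ Y, S u Y ∧ e ∉ Y := by
  obtain ⟨Y, hY⟩ := hS.ex u hu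
  by_cases he : e ∈ Y
  · obtain ⟨Y', hY', h1⟩ := hS.compl u Y hY
    exact ⟨Y', hY', fun h0 => ((h1 e).1 h0).2 he⟩
  · exact ⟨Y, hY, he⟩

/-- **(K)**: the words of a covered state split -/
theorem cov_of_sides (hS : Sides L S) (hiso : ∀ u ∈ L, ∀ w ∈ L, form u w = 0) (e : V) (D : V → K)
    (hlet : ∀ v, v ≠ e → (D v).1 = 1) (hfull : ∀ v, v ≠ e → ∃ u, KD L D e u ∧ u v ≠ 0)
    (u : V → K) (hu : KD L D e u) (hu0 : u ≠ 0) (hue : u e = 0) : ∃ g, Splits L u g := by
  obtain ⟨Y, hY, he⟩ := side_off (e := e) hS hu.1 hue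
  exact cov_aux hS hiso hlet hfull _ u Y rfl hY he hu hu0 hue

/-- words with at most one zero split -/
theorem wc_of_sides (hS : Sides L S) (u : V → K) (hu : u ∈ L) (hu0 : u ≠ 0) (hz : ZFree u)
    (h : ∃ e : V, ∀ v, v ≠ e → u v ≠ 0) : ∃ g, Splits L u g := by
  obtain ⟨e, he⟩ := h
  obtain ⟨Y, hY, heY⟩ : ∃ Y, S u Y ∧ e ∉ Y := by
    by_cases hue : u e = 0
    · exact side_off hS hu hue
    · obtain ⟨Y, hY⟩ := hS.ex u hu
      exact ⟨Y, hY, fun h0 => hue ((hS.mem u Y hY).2 e h0)⟩
  have hYe : Y = ∅ := by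
    rw [Finset.eq_empty_iff_forall_notMem]
    intro v hv
    have h1 := (hS.mem u Y hY).2 v hv
    by_cases hve : v = e
    · exact heY (hve ▸ hv)
    · exact he v hve h1
  subst hYe
  exact hS.wc u hY hz hu0

end Pool.Agent.H16.FQ
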