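import Pool.Agent.H16.FQ.Cov
import Pool.Agent.H95.End.Leaf
import Pool.Agent.H73.P4.RS2
import Pool.Agent.H31.Q.Fin

set_option autoImplicit false

/-!
Critical contra pairs of permutation graphs (MP_a46c6f_co, full Q1): everything except the statement that a
rooted code with sides has a tree as its graph.
-/

namespace Pool.Agent.H16.FQ

open Finset hiding mem_sup sup
open SimpleGraph Pool.Agent.H5.Goddyn Pool.Agent.H98.TC Pool.Agent.H64.Pent Pool.Agent.H98.Code
open Pool.Agent.H31.Q (Sides)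

/-- the graph of a rooted code with sides is a tree -/
def Heart : Prop :=
  ∀ (X : Type) [Fintype X] [DecidableEq X] (B : Submodule (ZMod 2) (X → K)) (e : X)
    (S : (X → K) → Finset X → Prop), IsCode B → NoZ B → Pool.Agent.H77.Q.RSides B e S →
    (graph B).IsTree

variable {V : Type} [Fintype V] [DecidableEq V]
variable {L : Submodule (ZMod 2) (V → K)} {S : (V → K) → Finset V → Prop}

theorem toEnd (hS : Sides L S) : Pool.Agent.H95.End.Sides L S := by
  refine ⟨fun u Y h => (hS.mem u Y h).1, fun u Y h => (hS.mem u Y h).2, hS.ex, ?_, ?_⟩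
  · intro u Y h
    obtain ⟨Y', hY', h1⟩ := hS.compl u Y h
    exact ⟨Y', hY', fun v hv => ⟨fun h2 => ((h1 v).1 h2).2, fun h2 => (h1 v).2 ⟨hv, h2⟩⟩⟩
  · intro u Y h k hk hle
    obtain ⟨k', hk', e1, e2, e3, ⟨Y1, h1, h2⟩, ⟨Y2, h3, h4⟩⟩ := hS.part u Y h k hk hle
    exact ⟨k', Y1, Y2, h2, by rw [add_comm]; exact h4, h1, h3, e1, e2, e3⟩

theorem code_of_heart (hH : Heart) (hcard : 2 ≤ Fintype.card V) (hL : IsCode L)
    (hz1 : (fun _ => z) ∈ L) (hz : ∀ u ∈ L, ZOnly u → u = 0 ∨ u = fun _ => z) (hS : Sides L S) :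
    ∃ g a b : V, ∃ c : V → K, a ≠ b ∧ a ≠ g ∧ b ≠ g ∧ S c ∅ ∧ c g = z ∧ (c a).1 = 1 ∧
      (c b).1 = 1 ∧ ∀ v, v ≠ g → v ≠ a → v ≠ b → c v = 0 := by
  refine adapt hL hz1 hz hcard (fun u hu h0 hz' h => wc_of_sides hS u hu h0 hz' h)
    (fun e D h1 h2 u h3 h4 h5 => cov_of_sides hS hL.iso e D h1 h2 u h3 h4 h5) ?_ ?_
  · intro e D P M0 t h _ _ hP _ _ ht hC hN
    have heW : ∀ M ∈ P.erase M0, e ∉ M := fun M hM =>
      (hP.mem M (Finset.mem_of_mem_erase hM)).2.1
    exact hH _ _ _ _ hC hN (Pool.Agent.H73.P4.rsides' hL (toParts hP) (Finset.erase_subset _ _) h.letter ht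
      heW hS)
  · intro e D P M0 h _ _ hP hM0 hmax _ hgz y hy leaf hr
    exact Pool.Agent.H95.End.own_free (toEnd hS) hL.iso hz1 h.noz h.letter hP hM0 hmax hgz y hy leaf hr

/-- **the reduction**: the conjecture from the tree property of rooted codes with sides -/
theorem petersen_of_heart (hH : Heart) {V : Type*} [Finite V] (G : SimpleGraph V)
    (M C₁ C₂ : G.Subgraph) (h : IsPermutationGraph G M C₁ C₂)
    (hrem : ∀ C : G.Subgraph, ¬ Removable G (wt M) C) : IsPetersenPair G M := by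
  refine Pool.Agent.H31.Q.petersen_of_sides ?_ G M C₁ C₂ h hrem
  intro n _ L S h5 _ hL hz1 hz hS
  exact code_of_heart hH (by rw [ZMod.card]; omega) hL hz1 hz hS

end Pool.Agent.H16.FQ
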